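import Mathlib
set_option autoImplicit false

namespace Pool.Agent.H.MP_9f86c8_nt
open Filter Topology Finset

def Free (A : Set ℕ) : Prop :=
  ∀ a ∈ A, ∀ b ∈ A, ∀ c ∈ A, a < b → b < c → b ^ 2 ≠ a * c

theorem card_mult (d N : ℕ) : ((Icc 1 N).filter fun a => d ∣ a).card = N / d := by
  rw [← Nat.Ioc_filter_dvd_card_eq_div N d]
  rfl

theorem sum_sq (P N : ℕ) (hP : 0 < P) :
    ∑ d ∈ Ioc P N, (1 : ℝ) / d ^ 2 ≤ 1 / P - 1 / (max N P : ℕ) := by
  induction N with
  | zero => simp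
  | succ N ih =>
    rcases le_or_gt (N + 1) P with h | h
    · rw [Ioc_eq_empty (by omega), max_eq_right h]
      simp
    · rw [sum_Ioc_succ_top (by omega)]
      rw [max_eq_left (by omega)] at ih
      rw [max_eq_left (by omega)]
      have hN' : (0 : ℝ) < N := by exact_mod_cast (by omega : 0 < N)
      have : (1 : ℝ) / ((N + 1 : ℕ) : ℝ) ^ 2 ≤ 1 / N - 1 / ((N + 1 : ℕ) : ℝ) := by
        push_cast
        rw [div_sub_div _ _ (by positivity) (by positivity),
          div_le_div_iff₀ (by positivity) (by positivity)]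
        nlinarith
      linarith

open Classical in
noncomputable def Bad (P N : ℕ) : Finset ℕ := (Icc 1 N).filter fun n => ∃ d, P < d ∧ d ^ 2 ∣ n

theorem bad_card (P N : ℕ) (hP : 0 < P) : ((Bad P N).card : ℝ) ≤ N / P := by
  classical
  have h1 : Bad P N ⊆ (Ioc P N).biUnion fun d => (Icc 1 N).filter fun n => d ^ 2 ∣ n := by
    intro n hn
    obtain ⟨hn1, d, hd, hdn⟩ := mem_filter.1 hn
    have hn2 := mem_Icc.1 hn1
    refine mem_biUnion.2 ⟨d, mem_Ioc.2 ⟨hd, ?_⟩, mem_filter.2 ⟨hn1, hdn⟩⟩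
    exact (Nat.le_of_dvd (by omega) ((dvd_pow_self d (by omega)).trans hdn)).trans hn2.2
  have h2 := (card_le_card h1).trans card_biUnion_le
  have h3 : ((Bad P N).card : ℝ) ≤ ∑ d ∈ Ioc P N, ((N / d ^ 2 : ℕ) : ℝ) := by
    simp only [card_mult] at h2
    exact_mod_cast h2
  refine h3.trans ?_
  have h4 : ∀ d ∈ Ioc P N, ((N / d ^ 2 : ℕ) : ℝ) ≤ N * (1 / d ^ 2) := by
    intro d _
    have := Nat.cast_div_le (α := ℝ) (m := N) (n := d ^ 2)
    refine this.trans (le_of_eq ?_)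
    push_cast
    ring
  refine (sum_le_sum h4).trans ?_
  rw [← mul_sum]
  have h5 := sum_sq P N hP
  have h6 : (0 : ℝ) ≤ 1 / (max N P : ℕ) := by positivity
  have h7 : (0 : ℝ) ≤ N := by positivity
  calc (N : ℝ) * ∑ d ∈ Ioc P N, (1 : ℝ) / d ^ 2 ≤ N * (1 / P) := by
        apply mul_le_mul_of_nonneg_left _ h7
        linarith
    _ = N / P := by ring

/-- the rough part is shared by the terms of a progression with no large square divisor. -/
theorem share {P m a b c : ℕ} (hm : Nat.Coprime m P.factorial) (h : b ^ 2 = a * c)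
    (ha : ¬ ∃ d, P < d ∧ d ^ 2 ∣ a) (hb : ¬ ∃ d, P < d ∧ d ^ 2 ∣ b)
    (hc : ¬ ∃ d, P < d ∧ d ^ 2 ∣ c) (hd : m ∣ a ∨ m ∣ b ∨ m ∣ c) :
    m ∣ a ∧ m ∣ b ∧ m ∣ c := by
  have hbig : ∀ p, p.Prime → p ∣ m → P < p := by
    intro p hp hpm
    by_contra hle
    have : p ∣ P.factorial := Nat.dvd_factorial hp.pos (by omega)
    exact hp.one_lt.ne' (Nat.eq_one_of_dvd_coprimes hm hpm this)
  have hsq : ∀ p, p.Prime → ¬ p ^ 2 ∣ m := by
    intro p hp hpm
    have hP := hbig p hp ((dvd_pow_self p (by omega)).trans hpm)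
    rcases hd with hd | hd | hd
    · exact ha ⟨p, hP, hpm.trans hd⟩
    · exact hb ⟨p, hP, hpm.trans hd⟩
    · exact hc ⟨p, hP, hpm.trans hd⟩
  have hall : ∀ p, p.Prime → p ∣ m → p ∣ a ∧ p ∣ b ∧ p ∣ c := by
    intro p hp hpm
    have hP := hbig p hp hpm
    have hpb : p ∣ b := by
      rcases hd with hd | hd | hd
      · exact hp.dvd_of_dvd_pow (h ▸ (hpm.trans hd).mul_right c)
      · exact hpm.trans hd
      · exact hp.dvd_of_dvd_pow (h ▸ (hpm.trans hd).mul_left a)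
    have h2 : p ^ 2 ∣ a * c := h ▸ pow_dvd_pow_of_dvd hpb 2
    refine ⟨?_, hpb, ?_⟩
    · by_contra hna
      exact hc ⟨p, hP, (Nat.Coprime.pow_left 2 ((Nat.Prime.coprime_iff_not_dvd hp).2 hna)).dvd_of_dvd_mul_left h2⟩
    · by_contra hnc
      exact ha ⟨p, hP, (Nat.Coprime.pow_left 2 ((Nat.Prime.coprime_iff_not_dvd hp).2 hnc)).dvd_of_dvd_mul_right h2⟩
  have fin : ∀ x, (∀ p, p.Prime → p ∣ m → p ∣ x) → m ∣ x := by
    intro x hx
    refine (Nat.dvd_iff_prime_pow_dvd_dvd x m).2 fun p k hp hk => ?_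
    rcases k with _ | _ | k
    · simp
    · simpa using hx p hp (by simpa using hk)
    · exact (hsq p hp ((pow_dvd_pow p (by omega)).trans hk)).elim
  exact ⟨fin a fun p hp h => (hall p hp h).1, fin b fun p hp h => (hall p hp h).2.1,
    fin c fun p hp h => (hall p hp h).2.2⟩

theorem uniq {P K m m' s s' : ℕ} (hK : K ≤ P) (hm : Nat.Coprime m P.factorial)
    (hm' : Nat.Coprime m' P.factorial) (hs : s ∈ Icc 1 K) (hs' : s' ∈ Icc 1 K)
    (h : m * s = m' * s') : m = m' := by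
  have h1 := mem_Icc.1 hs
  have h2 := mem_Icc.1 hs'
  have c1 : Nat.Coprime m s' := hm.coprime_dvd_right (Nat.dvd_factorial h2.1 (by omega))
  have c2 : Nat.Coprime m' s := hm'.coprime_dvd_right (Nat.dvd_factorial h1.1 (by omega))
  exact Nat.dvd_antisymm (c1.dvd_of_dvd_mul_right (h ▸ Dvd.intro _ rfl))
    (c2.dvd_of_dvd_mul_right (h.symm ▸ Dvd.intro _ rfl))

open Classical in
theorem improve {A : Set ℕ} (hA : Free A) {P K N : ℕ} (hP : 0 < P) (hK : K ≤ P) (T : Finset ℕ)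
    (hT : T ⊆ Icc 1 K) (hTf : Free T) (G : Finset ℕ)
    (hG : ∀ m ∈ G, Nat.Coprime m P.factorial ∧ K * m ≤ N ∧ N < (K + 1) * m ∧
      ((Icc 1 K).filter fun s => m * s ∈ A).card < T.card) :
    ∃ B : Finset ℕ, B ⊆ Icc 1 N ∧ Free B ∧
      (((Icc 1 N).filter fun n => n ∈ A).card : ℝ) + G.card - N / P ≤ B.card := by
  set A0 := (Icc 1 N).filter fun n => n ∈ A with hA0
  set U := G.biUnion fun m => (Icc 1 K).image fun s => m * s with hU
  set V := G.biUnion fun m => T.image fun s => m * s with hV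
  have hpos : ∀ m ∈ G, 0 < m := by
    intro m hm
    have := (hG m hm).2.2.1
    rcases Nat.eq_zero_or_pos m with rfl | h
    · simp at this
    · exact h
  have hVU : V ⊆ U := biUnion_mono fun m _ => image_subset_image hT
  have hsub : (A0 \ U) ∪ V ⊆ Icc 1 N := by
    intro n hn
    rcases mem_union.1 hn with hn | hn
    · exact (mem_filter.1 (mem_sdiff.1 hn).1).1
    · obtain ⟨m, hm, hn⟩ := mem_biUnion.1 hn
      obtain ⟨s, hs, rfl⟩ := mem_image.1 hn
      have h1 := mem_Icc.1 (hT hs)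
      have h2 := hpos m hm
      have h3 := (hG m hm).2.1
      exact mem_Icc.2 ⟨Nat.mul_pos h2 h1.1, by nlinarith⟩
  refine ⟨((A0 \ U) ∪ V) \ Bad P N, sdiff_subset.trans hsub, ?_, ?_⟩
  · intro a ha b hb c hc hab hbc h
    obtain ⟨ha1, ha2⟩ := mem_sdiff.1 (mem_coe.1 ha)
    obtain ⟨hb1, hb2⟩ := mem_sdiff.1 (mem_coe.1 hb)
    obtain ⟨hc1, hc2⟩ := mem_sdiff.1 (mem_coe.1 hc)
    have nb : ∀ x ∈ (A0 \ U) ∪ V, x ∉ Bad P N → ¬ ∃ d, P < d ∧ d ^ 2 ∣ x :=
      fun x hx h2 h3 => h2 (mem_filter.2 ⟨hsub hx, h3⟩)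
    by_cases hex : a ∈ V ∨ b ∈ V ∨ c ∈ V
    · have hdv : ∀ x ∈ V, ∃ m ∈ G, m ∣ x := by
        intro x hx
        obtain ⟨m, hm, hn⟩ := mem_biUnion.1 hx
        obtain ⟨s, -, rfl⟩ := mem_image.1 hn
        exact ⟨m, hm, Dvd.intro _ rfl⟩
      obtain ⟨m, hm, hmd⟩ : ∃ m ∈ G, m ∣ a ∨ m ∣ b ∨ m ∣ c := by
        rcases hex with h | h | h
        · obtain ⟨m, hm, hd⟩ := hdv _ h
          exact ⟨m, hm, Or.inl hd⟩
        · obtain ⟨m, hm, hd⟩ := hdv _ h
          exact ⟨m, hm, Or.inr (Or.inl hd)⟩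
        · obtain ⟨m, hm, hd⟩ := hdv _ h
          exact ⟨m, hm, Or.inr (Or.inr hd)⟩
      obtain ⟨d1, d2, d3⟩ := share (hG m hm).1 h (nb a ha1 ha2) (nb b hb1 hb2) (nb c hc1 hc2) hmd
      have hm0 := hpos m hm
      have inT : ∀ x ∈ (A0 \ U) ∪ V, m ∣ x → ∃ s ∈ T, x = m * s := by
        rintro x hx ⟨s, rfl⟩
        have h1 := mem_Icc.1 (hsub hx)
        have h2 := (hG m hm).2.2.1
        have hs : s ∈ Icc 1 K := by
          refine mem_Icc.2 ⟨Nat.pos_of_ne_zero ?_, ?_⟩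
          · rintro rfl
            simp at h1
          · by_contra hc
            have : K + 1 ≤ s := by omega
            nlinarith
        rcases mem_union.1 hx with hx | hx
        · exact ((mem_sdiff.1 hx).2 (mem_biUnion.2 ⟨m, hm, mem_image.2 ⟨s, hs, rfl⟩⟩)).elim
        · obtain ⟨m', hm', hn⟩ := mem_biUnion.1 hx
          obtain ⟨s', hs', he⟩ := mem_image.1 hn
          have := uniq hK (hG m' hm').1 (hG m hm).1 (hT hs') hs he
          subst this
          exact ⟨s', hs', he.symm⟩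
      obtain ⟨a', ha', rfl⟩ := inT a ha1 d1
      obtain ⟨b', hb', rfl⟩ := inT b hb1 d2
      obtain ⟨c', hc', rfl⟩ := inT c hc1 d3
      refine hTf a' ha' b' hb' c' hc' (lt_of_mul_lt_mul_left hab (Nat.zero_le _))
        (lt_of_mul_lt_mul_left hbc (Nat.zero_le _)) ?_
      have : m ^ 2 * b' ^ 2 = m ^ 2 * (a' * c') := by
        calc m ^ 2 * b' ^ 2 = (m * b') ^ 2 := by ring
          _ = m * a' * (m * c') := h
          _ = _ := by ring
      exact Nat.eq_of_mul_eq_mul_left (by positivity) this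
    · have inA : ∀ x ∈ (A0 \ U) ∪ V, x ∉ V → x ∈ A := by
        intro x hx hxV
        rcases mem_union.1 hx with hx | hx
        · exact (mem_filter.1 (mem_sdiff.1 hx).1).2
        · exact (hxV hx).elim
      exact hA a (inA a ha1 fun h => hex (Or.inl h)) b (inA b hb1 fun h => hex (Or.inr (Or.inl h)))
        c (inA c hc1 fun h => hex (Or.inr (Or.inr h))) hab hbc h
  · have e1 : ((A0 \ U) ∪ V).card ≤ (((A0 \ U) ∪ V) \ Bad P N).card + (Bad P N).card :=
      card_le_card_sdiff_add_card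
    have e2 : ((A0 \ U) ∪ V).card = (A0 \ U).card + V.card :=
      card_union_of_disjoint (disjoint_left.2 fun x hx hxV => (mem_sdiff.1 hx).2 (hVU hxV))
    have e3 : V.card = ∑ m ∈ G, T.card := by
      rw [hV, card_biUnion]
      · refine sum_congr rfl fun m hm => card_image_of_injective _ ?_
        exact mul_right_injective₀ (hpos m hm).ne'
      · intro m hm m' hm' hne
        refine disjoint_left.2 fun x hx hx' => hne ?_
        obtain ⟨s, hs, rfl⟩ := mem_image.1 hx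
        obtain ⟨s', hs', he⟩ := mem_image.1 hx'
        exact (uniq hK (hG m' hm').1 (hG m hm).1 (hT hs') (hT hs) he).symm
    have e4 : A0 ⊆ (A0 \ U) ∪ G.biUnion fun m =>
        ((Icc 1 K).filter fun s => m * s ∈ A).image fun s => m * s := by
      intro x hx
      by_cases hxU : x ∈ U
      · obtain ⟨m, hm, hn⟩ := mem_biUnion.1 hxU
        obtain ⟨s, hs, rfl⟩ := mem_image.1 hn
        exact mem_union_right _ (mem_biUnion.2 ⟨m, hm, mem_image.2
          ⟨s, mem_filter.2 ⟨hs, (mem_filter.1 hx).2⟩, rfl⟩⟩)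
      · exact mem_union_left _ (mem_sdiff.2 ⟨hx, hxU⟩)
    have e5 : A0.card ≤ (A0 \ U).card + ∑ m ∈ G, ((Icc 1 K).filter fun s => m * s ∈ A).card :=
      (card_le_card e4).trans ((card_union_le _ _).trans (Nat.add_le_add_left
        (card_biUnion_le.trans (sum_le_sum fun m _ => card_image_le)) _))
    have e6 : ∑ m ∈ G, (((Icc 1 K).filter fun s => m * s ∈ A).card + 1) ≤ ∑ m ∈ G, T.card :=
      sum_le_sum fun m hm => (hG m hm).2.2.2
    rw [sum_add_distrib, sum_const, smul_eq_mul, mul_one] at e6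
    have e7 : A0.card + G.card ≤ (((A0 \ U) ∪ V) \ Bad P N).card + (Bad P N).card := by omega
    have e8 : (A0.card : ℝ) + G.card ≤ (((A0 \ U) ∪ V) \ Bad P N).card + (Bad P N).card := by
      exact_mod_cast e7
    have := bad_card P N hP
    linarith

theorem free3 : Free ((({1, 2, 3} : Finset ℕ)) : Set ℕ) := by
  have : ∀ a ∈ ({1, 2, 3} : Finset ℕ), ∀ b ∈ ({1, 2, 3} : Finset ℕ), ∀ c ∈ ({1, 2, 3} : Finset ℕ),
    a < b → b < c → b ^ 2 ≠ a * c := by decide
  exact this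

def T12 : Finset ℕ := {1, 2, 5, 6, 7, 8, 9, 10, 11, 12}

theorem free12 : Free (T12 : Set ℕ) := by
  have : ∀ a ∈ T12, ∀ b ∈ T12, ∀ c ∈ T12, a < b → b < c → b ^ 2 ≠ a * c := by decide +kernel
  exact this

open Classical in
theorem dich {A : Set ℕ} (hA : Free A) {m : ℕ} (hm : 0 < m) :
    ((Icc 1 3).filter fun s => m * s ∈ A).card < 3 ∨
      ((Icc 1 12).filter fun s => m * s ∈ A).card < 10 := by
  by_cases h : ∀ s ∈ Icc 1 3, m * s ∈ A
  · right
    have h1 := h 1 (by decide)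
    have h2 := h 2 (by decide)
    have h3 := h 3 (by decide)
    have h4 : m * 4 ∉ A := fun h4 => hA _ h1 _ h2 _ h4 (by omega) (by omega) (by ring)
    have h9 : m * 9 ∉ A := fun h9 => hA _ h1 _ h3 _ h9 (by omega) (by omega) (by ring)
    have h6 : m * 6 ∉ A ∨ m * 12 ∉ A := by
      by_contra hc
      rw [not_or, not_not, not_not] at hc
      exact hA _ h3 _ hc.1 _ hc.2 (by omega) (by omega) (by ring)
    have key : ∀ t, m * t ∉ A → ((Icc 1 12).filter fun s => m * s ∈ A) ⊆ Icc 1 12 \ {4, 9, t} := by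
      intro t ht s hs
      obtain ⟨hs1, hs2⟩ := mem_filter.1 hs
      refine mem_sdiff.2 ⟨hs1, fun hs3 => ?_⟩
      simp only [mem_insert, mem_singleton] at hs3
      rcases hs3 with rfl | rfl | rfl
      exacts [h4 hs2, h9 hs2, ht hs2]
    rcases h6 with h6 | h6
    · exact (card_le_card (key 6 h6)).trans_lt (by decide)
    · exact (card_le_card (key 12 h6)).trans_lt (by decide)
  · left
    have : ((Icc 1 3).filter fun s => m * s ∈ A) ⊂ Icc 1 3 := filter_ssubset.2 (by push Not at h; exact h)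
    exact (card_lt_card this).trans_eq (by decide)

theorem cop_count (M x j : ℕ) :
    ((Ico x (x + M * j)).filter fun m => M.Coprime m).card = j * M.totient := by
  induction j with
  | zero => simp
  | succ j ih =>
    rw [← Ico_union_Ico_eq_Ico (b := x + M * j) (by omega) (by nlinarith), filter_union,
      card_union_of_disjoint (disjoint_filter_filter (Ico_disjoint_Ico_consecutive _ _ _)), ih]
    have := Nat.filter_coprime_Ico_eq_totient M (x + M * j)
    rw [show x + M * (j + 1) = x + M * j + M by ring, this]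
    ring

theorem prod_odd (k : ℕ) :
    1 ≤ (∏ i ∈ Icc 1 k, (1 - ((2 * i + 1 : ℕ) : ℚ)⁻¹)) ^ 2 * (2 * k + 1) := by
  induction k with
  | zero => simp
  | succ k ih =>
    rw [prod_Icc_succ_top (by omega), mul_pow, mul_assoc]
    refine ih.trans (mul_le_mul_of_nonneg_left ?_ (by positivity))
    push_cast
    have hk : (0 : ℚ) ≤ k := by positivity
    have : (1 - (2 * ((k : ℚ) + 1) + 1)⁻¹) = (2 * k + 2) / (2 * k + 3) := by
      field_simp
      ring
    rw [this, div_pow, div_mul_eq_mul_div, le_div_iff₀ (by positivity)]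
    nlinarith

theorem tot_big (C : ℕ) : ∃ P : ℕ, 12 ≤ P ∧ (C : ℝ) * P.factorial < P * P.factorial.totient := by
  obtain ⟨k, hk⟩ : ∃ k, k = 2 * C ^ 2 + 6 := ⟨_, rfl⟩
  obtain ⟨P, hP⟩ : ∃ P, P = 2 * k + 1 := ⟨_, rfl⟩
  refine ⟨P, by omega, ?_⟩
  have h1 := Nat.totient_eq_mul_prod_factors P.factorial
  have h2 : P.factorial.primeFactors ⊆ insert 2 ((Icc 1 k).image fun i : ℕ => 2 * i + 1) := by
    intro p hp
    have hp1 := Nat.prime_of_mem_primeFactors hp
    have hp2 := (hp1.dvd_factorial).1 (Nat.dvd_of_mem_primeFactors hp)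
    rcases hp1.eq_two_or_odd with h | h
    · exact h ▸ mem_insert_self _ _
    · have := hp1.two_le
      exact mem_insert_of_mem (mem_image.2 ⟨p / 2, mem_Icc.2 ⟨by omega, by omega⟩, by omega⟩)
  have h3 : ∏ p ∈ (insert 2 ((Icc 1 k).image fun i : ℕ => 2 * i + 1) : Finset ℕ), (1 - (p : ℚ)⁻¹) ≤
      ∏ p ∈ P.factorial.primeFactors, (1 - (p : ℚ)⁻¹) := by
    refine prod_le_prod_of_subset_of_le_one h2 (fun p _ => ?_) (fun p _ _ => ?_)
    · rw [sub_nonneg]
      rcases Nat.eq_zero_or_pos p with rfl | h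
      · simp
      · exact inv_le_one_of_one_le₀ (by exact_mod_cast h)
    · have : (0 : ℚ) ≤ (p : ℚ)⁻¹ := by positivity
      linarith
  have hn : 2 ∉ (Icc 1 k).image fun i : ℕ => 2 * i + 1 := by
    intro h
    obtain ⟨i, -, hi⟩ := mem_image.1 h
    omega
  rw [prod_insert hn, prod_image (fun x _ y _ h => by omega)] at h3
  have h4 := prod_odd k
  have hQ0 : 0 ≤ ∏ i ∈ Icc 1 k, (1 - ((2 * i + 1 : ℕ) : ℚ)⁻¹) := prod_nonneg fun i _ => by
    rw [sub_nonneg]
    exact inv_le_one_of_one_le₀ (by exact_mod_cast (by omega : 1 ≤ 2 * i + 1))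
  generalize ∏ i ∈ Icc 1 k, (1 - ((2 * i + 1 : ℕ) : ℚ)⁻¹) = Q at h3 h4 hQ0
  generalize ∏ p ∈ P.factorial.primeFactors, (1 - (p : ℚ)⁻¹) = R at h1 h3
  have hPk : (P : ℚ) = 2 * k + 1 := by rw [hP]; push_cast; ring
  have hkC : (k : ℚ) = 2 * C ^ 2 + 6 := by rw [hk]; push_cast; ring
  have hP0 : (0 : ℚ) < P := by rw [hPk]; positivity
  have h5 : (2 : ℚ) * C < P * Q := by
    refine lt_of_pow_lt_pow_left₀ 2 (by positivity) ?_
    rw [← hPk] at h4
    have : (P : ℚ) ≤ (P * Q) ^ 2 := by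
      calc (P : ℚ) = P * 1 := by ring
        _ ≤ P * (Q ^ 2 * P) := mul_le_mul_of_nonneg_left h4 hP0.le
        _ = _ := by ring
    nlinarith
  have hF : (0 : ℚ) < P.factorial := by exact_mod_cast P.factorial_pos
  have h6 : (C : ℚ) * P.factorial < P * P.factorial.totient := by
    rw [h1]
    have h7 : (C : ℚ) < P * R := by
      have h8 := mul_le_mul_of_nonneg_left h3 hP0.le
      have h9 : (1 - ((2 : ℕ) : ℚ)⁻¹) = 1 / 2 := by norm_num
      rw [h9] at h8
      linarith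
    nlinarith
  exact_mod_cast h6

open Classical in
theorem gain : ∃ c : ℝ, 0 < c ∧ ∀ A : Set ℕ, Free A → ∀ N0 : ℕ, ∃ N, N0 ≤ N ∧ ∃ B : Finset ℕ,
    B ⊆ Icc 1 N ∧ Free B ∧ (((Icc 1 N).filter fun n => n ∈ A).card : ℝ) + c * N ≤ B.card := by
  obtain ⟨P, hP, hC⟩ := tot_big 312
  obtain ⟨M, hM⟩ : ∃ M, M = P.factorial := ⟨_, rfl⟩
  rw [← hM] at hC
  have hM0 : 0 < M := hM ▸ P.factorial_pos
  have hM' : (0 : ℝ) < M := by exact_mod_cast hM0
  have hP' : (0 : ℝ) < P := by exact_mod_cast (by omega : 0 < P)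
  refine ⟨M.totient / (312 * M) - 1 / P, ?_, fun A hA N0 => ?_⟩
  · rw [sub_pos, div_lt_div_iff₀ hP' (by positivity)]
    push_cast at hC
    linarith
  set I := (Ico (12 * (M * N0) + 1) (12 * (M * N0) + 1 + M * N0)).filter fun m => M.Coprime m
    with hI
  have hIc : I.card = N0 * M.totient := cop_count _ _ _
  set G1 := I.filter fun m => ((Icc 1 3).filter fun s => m * s ∈ A).card < 3 with hG1
  set G2 := I.filter fun m => ((Icc 1 12).filter fun s => m * s ∈ A).card < 10 with hG2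
  have hmem : ∀ m ∈ I, Nat.Coprime m P.factorial ∧ 12 * (M * N0) < m ∧ m ≤ 13 * (M * N0) := by
    intro m hm
    obtain ⟨h1, h2⟩ := mem_filter.1 hm
    have := mem_Ico.1 h1
    exact ⟨hM ▸ h2.symm, by omega, by omega⟩
  have hU : I ⊆ G1 ∪ G2 := by
    intro m hm
    rcases dich hA (m := m) (by have := hmem m hm; omega) with h | h
    · exact mem_union_left _ (mem_filter.2 ⟨hm, h⟩)
    · exact mem_union_right _ (mem_filter.2 ⟨hm, h⟩)
  have hc := (card_le_card hU).trans (card_union_le _ _)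
  have hN0 : N0 ≤ M * N0 := Nat.le_mul_of_pos_left _ hM0
  have fin : ∀ (t g : ℕ), t ≤ 156 → N0 * M.totient ≤ 2 * g →
      ((M.totient : ℝ) / (312 * M) - 1 / P) * (t * (M * N0) : ℕ) ≤ g - (t * (M * N0) : ℕ) / P := by
    intro t g ht hg
    have ht' : (t : ℝ) ≤ 156 := by exact_mod_cast ht
    have hg' : (N0 : ℝ) * M.totient ≤ 2 * g := by exact_mod_cast hg
    have h0 : (0 : ℝ) ≤ N0 * M.totient := by positivity
    have : (M.totient : ℝ) / (312 * M) * (t * (M * N0) : ℕ) = t * (N0 * M.totient) / 312 := by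
      push_cast
      field_simp
    rw [sub_mul, this]
    have : (1 : ℝ) / P * (t * (M * N0) : ℕ) = (t * (M * N0) : ℕ) / P := by ring
    rw [this]
    nlinarith
  rcases le_total G1.card G2.card with h | h
  · obtain ⟨B, b1, b2, b3⟩ := improve hA (K := 12) (N := 156 * (M * N0)) (by omega) hP T12
      (by decide) free12 G2 (fun m hm => by
        obtain ⟨h1, h2⟩ := mem_filter.1 hm
        obtain ⟨h3, h4, h5⟩ := hmem m h1
        exact ⟨h3, by omega, by omega, h2⟩)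
    refine ⟨_, by omega, B, b1, b2, ?_⟩
    have := fin 156 G2.card le_rfl (by omega)
    linarith
  · obtain ⟨B, b1, b2, b3⟩ := improve hA (K := 3) (N := 48 * (M * N0)) (P := P) (by omega) (by omega)
      {1, 2, 3} (by decide) free3 G1 (fun m hm => by
        obtain ⟨h1, h2⟩ := mem_filter.1 hm
        obtain ⟨h3, h4, h5⟩ := hmem m h1
        exact ⟨h3, by omega, by omega, h2⟩)
    refine ⟨_, by omega, B, b1, b2, ?_⟩
    have := fin 48 G1.card (by norm_num) (by omega)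
    linarith

open Classical in
theorem glue {θ : ℝ} (h : ∀ N0 : ℕ, ∃ N, N0 ≤ N ∧ ∃ B : Finset ℕ,
    B ⊆ Icc 1 N ∧ Free B ∧ θ * N ≤ B.card) (L : ℕ) (hL : 0 < L) :
    ∃ C : Set ℕ, (∀ n ∈ C, 1 ≤ n) ∧ Free C ∧ ∀ N0 : ℕ, ∃ N, N0 ≤ N ∧
      (θ - 1 / L) * N ≤ ((Icc 1 N).filter fun n => n ∈ C).card := by
  choose f hf B hB1 hB2 hB3 using h
  let u : ℕ → ℕ := fun i => Nat.rec 0 (fun _ x => L ^ 2 * (f x + 1) ^ 2) i
  have hu : ∀ i, u (i + 1) = L ^ 2 * (f (u i) + 1) ^ 2 := fun i => rfl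
  have hL2 : 1 ≤ L ^ 2 := Nat.one_le_pow _ _ hL
  have hmono : StrictMono fun i => f (u i) := by
    refine strictMono_nat_of_lt_succ fun i => lt_of_lt_of_le ?_ (hf _)
    rw [hu]
    nlinarith
  have hbig : ∀ i j, i < j → L ^ 2 * (f (u i) + 1) ^ 2 ≤ f (u j) := by
    intro i j hij
    exact (hu i ▸ hf (u (i + 1))).trans (hmono.monotone hij)
  refine ⟨{n | ∃ i, n ∈ B (u i) ∧ f (u i) < L * n}, ?_, ?_, fun N0 => ⟨f (u N0), hmono.id_le N0, ?_⟩⟩
  · rintro n ⟨i, hi, -⟩
    exact (mem_Icc.1 (hB1 _ hi)).1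
  · rintro a ⟨i, hi, hi'⟩ b ⟨j, hj, hj'⟩ c ⟨k, hk, hk'⟩ hab hbc h
    have ha := mem_Icc.1 (hB1 _ hi)
    have hb := mem_Icc.1 (hB1 _ hj)
    have hc := mem_Icc.1 (hB1 _ hk)
    have sep : ∀ {x y i j : ℕ}, i < j → x ≤ f (u i) → f (u j) < L * y → L * (x + 1) ^ 2 < y := by
      intro x y i j hij hx hy
      have h1 := hbig i j hij
      have h2 : (x + 1) ^ 2 ≤ (f (u i) + 1) ^ 2 := Nat.pow_le_pow_left (by omega) 2
      have h3 : L * (L * (x + 1) ^ 2) < L * y := by nlinarith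
      exact lt_of_mul_lt_mul_left h3 (Nat.zero_le _)
    have hjk : j = k := by
      rcases lt_trichotomy j k with h1 | h1 | h1
      · have := sep h1 hb.2 hk'
        nlinarith
      · exact h1
      · have := sep h1 hc.2 hj'
        nlinarith
    subst hjk
    have hij : i = j := by
      rcases lt_trichotomy i j with h1 | h1 | h1
      · have h2 := sep h1 ha.2 hj'
        have h3 : c < L * b := by omega
        have h4 : a * c ≤ a * (L * b) := Nat.mul_le_mul_left _ h3.le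
        have h5 : L * a < b := by nlinarith
        nlinarith
      · exact h1
      · have := sep h1 hb.2 hi'
        nlinarith
    subst hij
    exact hB2 _ a hi b hj c hk hab hbc h
  · set N := f (u N0) with hN
    have h1 : B (u N0) ⊆ ((Icc 1 N).filter fun n => n ∈ {n | ∃ i, n ∈ B (u i) ∧ f (u i) < L * n}) ∪
        Icc 1 (N / L) := by
      intro x hx
      have hx1 := hB1 _ hx
      by_cases hlt : N < L * x
      · exact mem_union_left _ (mem_filter.2 ⟨hx1, N0, hx, hlt⟩)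
      · refine mem_union_right _ (mem_Icc.2 ⟨(mem_Icc.1 hx1).1, ?_⟩)
        rw [Nat.le_div_iff_mul_le hL]
        nlinarith
    have h2 := (card_le_card h1).trans (card_union_le _ _)
    rw [Nat.card_Icc, Nat.add_sub_cancel] at h2
    have h3 : ((N / L : ℕ) : ℝ) ≤ N / L := Nat.cast_div_le
    have h4 : ((B (u N0)).card : ℝ) ≤ (((Icc 1 N).filter
        fun n => n ∈ {n | ∃ i, n ∈ B (u i) ∧ f (u i) < L * n}).card : ℝ) + ((N / L : ℕ) : ℝ) := by
      exact_mod_cast h2
    have h5 := hB3 (u N0)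
    have : (θ - 1 / L) * N = θ * N - N / L := by ring
    rw [this]
    linarith

end Pool.Agent.H.MP_9f86c8_nt
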